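import Mathlib
import Pool.Agent.R586.Eul

set_option autoImplicit false

namespace Pool.Agent.Results.MP_a2af9e_co.ExactMultiplicity

open Finset Polynomial Pool.Agent.R586.Eul

section rec

variable {V : Type*} [DecidableEq V]

/-- the generating polynomial of the labellings of the vertices of `S` (with `n` labels) -/
noncomputable def W (D : V → V → Prop) [DecidableRel D] : ℕ → Finset V → ℤ[X]
  | 0, _ => 1
  | n + 1, S => ∑ a ∈ S, X ^ (S.filter (fun u => D a u)).card * W D n (S.erase a)

lemma W_restr (D : V → V → Prop) [DecidableRel D] (a : V) (n : ℕ) :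
    ∀ S : Finset {b // b ≠ a}, W (restr D a) n S = W D n (S.map (Function.Embedding.subtype _)) := by
  induction n with
  | zero => intro S; rfl
  | succ n ih =>
    intro S
    simp only [W]
    rw [Finset.sum_map]
    refine Finset.sum_congr rfl fun x hx => ?_
    rw [ih]
    congr 1
    · congr 1
      rw [← Finset.card_map (Function.Embedding.subtype _)]
      congr 1
      ext y
      constructor
      · intro hy
        obtain ⟨z, hz, rfl⟩ := mem_map.1 hy
        obtain ⟨hz1, hz2⟩ := mem_filter.1 hz
        exact mem_filter.2 ⟨mem_map.2 ⟨z, hz1, rfl⟩, hz2⟩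
      · intro hy
        obtain ⟨hy1, hy2⟩ := mem_filter.1 hy
        obtain ⟨z, hz, rfl⟩ := mem_map.1 hy1
        exact mem_map.2 ⟨z, mem_filter.2 ⟨hz, hy2⟩, rfl⟩
    · congr 1
      ext y
      simp only [mem_map, mem_erase, Function.Embedding.subtype_apply]
      constructor
      · rintro ⟨z, ⟨hz, hz2⟩, rfl⟩
        exact ⟨fun h => hz (Subtype.ext h), z, hz2, rfl⟩
      · rintro ⟨h, z, hz, rfl⟩
        exact ⟨z, ⟨fun h2 => h (congrArg Subtype.val h2), hz⟩, rfl⟩

end rec

lemma eulerN_eq (n : ℕ) : ∀ (V : Type) [Fintype V] [DecidableEq V] (D : V → V → Prop)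
    [DecidableRel D], (∀ v, ¬ D v v) → Fintype.card V = n →
      ∑ σ : V ≃ Fin n, (X : ℤ[X]) ^ des D σ = W D n univ := by
  induction n with
  | zero =>
    intro V _ _ D _ _ hc
    have : IsEmpty V := Fintype.card_eq_zero_iff.1 hc
    rw [Fintype.sum_equiv (Equiv.refl _) _ (fun _ => (1 : ℤ[X]))]
    · simp only [W, sum_const, card_univ]
      have : Unique (V ≃ Fin 0) := ⟨⟨Equiv.equivOfIsEmpty _ _⟩, fun e => by ext x; exact isEmptyElim x⟩
      simp
    · intro σ
      have : des D σ = 0 := by
        unfold des
        rw [Finset.card_eq_zero, Finset.filter_eq_empty_iff]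
        intro p
        exact isEmptyElim p.1
      rw [this, pow_zero]
  | succ n ih =>
    intro V _ _ D _ hirr hc
    rw [sum_all]
    simp only [W]
    refine Finset.sum_congr rfl fun a _ => ?_
    have h1 : ∀ τ : {b // b ≠ a} ≃ Fin n, (X : ℤ[X]) ^ des D (ext a τ)
        = X ^ (univ.filter (fun u => D a u)).card * X ^ des (restr D a) τ := by
      intro τ
      rw [des_ext D hirr, pow_add]
      rfl
    rw [Finset.sum_congr rfl (fun τ _ => h1 τ), ← Finset.mul_sum]
    congr 1
    have hcard : Fintype.card {b : V // b ≠ a} = n := by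
      have := Fintype.card_subtype_compl (fun u : V => u = a)
      rw [Fintype.card_subtype_eq] at this
      simp only [ne_eq]
      rw [this, hc]; rfl
    rw [ih {b : V // b ≠ a} (restr D a) (fun v h => hirr _ h) hcard, W_restr]
    congr 1
    ext y
    simp

section main

variable {V ι : Type} [DecidableEq V] [Fintype ι] [DecidableEq ι]
variable (part : V → ι) (D : V → V → Prop) [DecidableRel D]

/-- number of elements of `S` in part `i` -/
def cnt (S : Finset V) (i : ι) : ℕ := (S.filter (fun v => part v = i)).card

/-- number of odd parts -/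
def rr (S : Finset V) : ℕ := (univ.filter (fun i => Odd (cnt part S i))).card

/-- out-degree in `S` -/
def os (S : Finset V) (a : V) : ℕ := (S.filter (fun u => D a u)).card

/-- arcs leaving the pair -/
def E2 (S : Finset V) (a b : V) : ℕ := os D ((S.erase a).erase b) a + os D ((S.erase a).erase b) b

/-- eligible pairs -/
def elig (S : Finset V) (a b : V) : Prop :=
  part a = part b ∨ (Odd (cnt part S (part a)) ∧ Odd (cnt part S (part b)))

instance (S : Finset V) (a b : V) : Decidable (elig part S a b) := by
  unfold elig; infer_instance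

/-- weight of a pair -/
def phi (S : Finset V) (a b : V) : ℤ := if elig part S a b then (-1) ^ E2 D S a b else 0

/-- ordered signed count of perfect structures -/
def U : ℕ → Finset V → ℤ
  | 0, _ => 1
  | k + 1, S => ∑ a ∈ S, ∑ b ∈ S.erase a, phi part D S a b * U k ((S.erase a).erase b)

omit [Fintype ι] in
lemma cnt_erase (S : Finset V) (a : V) (ha : a ∈ S) (i : ι) :
    cnt part S i = cnt part (S.erase a) i + if part a = i then 1 else 0 := by
  unfold cnt
  conv_lhs => rw [← Finset.insert_erase ha]
  rw [Finset.filter_insert]
  split_ifs with h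
  · rw [Finset.card_insert_of_notMem (by simp)]
  · simp

omit [DecidableEq V] in
lemma sum_cnt (S : Finset V) : ∑ i, cnt part S i = S.card := by
  unfold cnt
  exact (Finset.card_eq_sum_card_fiberwise (fun _ _ => mem_coe.2 (mem_univ _))).symm

omit [DecidableEq V] in
lemma odd_rr (S : Finset V) : Odd (rr part S) ↔ Odd S.card := by
  unfold rr
  rw [← Finset.odd_sum_iff_odd_card_odd, sum_cnt]

omit [DecidableEq V] in
/-- parity of the number of elements in odd parts -/
lemma odd_card_odd (S : Finset V) :
    Odd (S.filter (fun y => Odd (cnt part S (part y)))).card ↔ Odd S.card := by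
  have h1 : (S.filter (fun y => Odd (cnt part S (part y)))).card
      = ∑ i, if Odd (cnt part S i) then cnt part S i else 0 := by
    rw [Finset.card_eq_sum_card_fiberwise (f := part) (t := univ)
      (fun _ _ => mem_coe.2 (mem_univ _))]
    refine Finset.sum_congr rfl fun i _ => ?_
    split_ifs with h
    · unfold cnt
      congr 1
      ext y
      simp only [mem_filter]
      constructor
      · rintro ⟨⟨h1, _⟩, h2⟩; exact ⟨h1, h2⟩
      · rintro ⟨h1, h2⟩
        refine ⟨⟨h1, ?_⟩, h2⟩
        rw [h2]; exact h
    · rw [Finset.card_eq_zero, Finset.filter_eq_empty_iff]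
      intro y hy h2
      simp only [mem_filter] at hy
      rw [h2] at hy
      exact h hy.2
  rw [h1, Finset.odd_sum_iff_odd_card_odd, ← odd_rr part S]
  unfold rr
  have : (univ.filter (fun i => Odd (if Odd (cnt part S i) then cnt part S i else 0)))
      = univ.filter (fun i => Odd (cnt part S i)) := by
    ext i
    simp only [mem_filter, mem_univ, true_and]
    split_ifs with h
    · simp [h]
    · simp [h]
  rw [this]

/-- the number of partners of `x` is odd -/
lemma odd_partners (S : Finset V) (hS : Even S.card) (x : V) (hx : x ∈ S) :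
    Odd ((S.erase x).filter (fun y => elig part S x y)).card := by
  by_cases ho : Odd (cnt part S (part x))
  · have h1 : (S.erase x).filter (fun y => elig part S x y)
        = (S.filter (fun y => Odd (cnt part S (part y)))).erase x := by
      ext y
      rw [mem_filter, mem_erase, mem_erase, mem_filter]
      unfold elig
      constructor
      · rintro ⟨⟨h1, h2⟩, h3 | h3⟩
        · exact ⟨h1, h2, by rw [← h3]; exact ho⟩
        · exact ⟨h1, h2, h3.2⟩
      · rintro ⟨h1, h2, h3⟩
        exact ⟨⟨h1, h2⟩, Or.inr ⟨ho, h3⟩⟩
    rw [h1, Finset.card_erase_of_mem (by simp [hx, ho])]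
    have h2 := odd_card_odd part S
    have h3 : Even (S.filter (fun y => Odd (cnt part S (part y)))).card := by
      rw [← Nat.not_odd_iff_even, h2, Nat.not_odd_iff_even]; exact hS
    have h4 : 0 < (S.filter (fun y => Odd (cnt part S (part y)))).card :=
      Finset.card_pos.2 ⟨x, by simp [hx, ho]⟩
    obtain ⟨c, hc⟩ := h3
    refine ⟨c - 1, by omega⟩
  · have h1 : (S.erase x).filter (fun y => elig part S x y)
        = (S.filter (fun y => part y = part x)).erase x := by
      ext y
      rw [mem_filter, mem_erase, mem_erase, mem_filter]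
      unfold elig
      constructor
      · rintro ⟨⟨h1, h2⟩, h3 | h3⟩
        · exact ⟨h1, h2, h3.symm⟩
        · exact absurd h3.1 ho
      · rintro ⟨h1, h2, h3⟩
        exact ⟨⟨h1, h2⟩, Or.inl h3.symm⟩
    rw [h1, Finset.card_erase_of_mem (by simp [hx])]
    have h3 : Even (S.filter (fun y => part y = part x)).card := by
      rw [← Nat.not_odd_iff_even]; exact ho
    have h4 : 0 < (S.filter (fun y => part y = part x)).card :=
      Finset.card_pos.2 ⟨x, by simp [hx]⟩
    obtain ⟨c, hc⟩ := h3
    refine ⟨c - 1, by omega⟩

omit [Fintype ι] in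
lemma cnt_erase2 (S : Finset V) (a b : V) (ha : a ∈ S) (hb : b ∈ S.erase a) (i : ι) :
    cnt part S i = cnt part ((S.erase a).erase b) i + (if part a = i then 1 else 0)
      + (if part b = i then 1 else 0) := by
  rw [cnt_erase part S a ha i, cnt_erase part (S.erase a) b hb i]
  ring

omit [Fintype ι] in
/-- removing two elements of one part does not change parities -/
lemma odd_same (S : Finset V) (a b : V) (ha : a ∈ S) (hb : b ∈ S.erase a)
    (h : part a = part b) (i : ι) :
    Odd (cnt part ((S.erase a).erase b) i) ↔ Odd (cnt part S i) := by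
  rw [cnt_erase2 part S a b ha hb i, h]
  split_ifs with h1
  · rw [Nat.odd_iff, Nat.odd_iff]; omega
  · simp

omit [Fintype ι] in
lemma odd_diff (S : Finset V) (a b : V) (ha : a ∈ S) (hb : b ∈ S.erase a)
    (h : part a ≠ part b) (i : ι) :
    Odd (cnt part ((S.erase a).erase b) i) ↔
      (Odd (cnt part S i) ↔ ¬ (i = part a ∨ i = part b)) := by
  rw [cnt_erase2 part S a b ha hb i]
  by_cases h1 : part a = i
  · have h2 : ¬ part b = i := fun h2 => h (h1.trans h2.symm)
    rw [if_pos h1, if_neg h2]
    simp only [h1.symm, true_or, not_true_eq_false, iff_false, Nat.not_odd_iff_even]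
    rw [Nat.odd_iff, Nat.even_iff]; omega
  · by_cases h2 : part b = i
    · rw [if_neg h1, if_pos h2]
      simp only [h2.symm, or_true, not_true_eq_false, iff_false, Nat.not_odd_iff_even]
      rw [Nat.odd_iff, Nat.even_iff]; omega
    · rw [if_neg h1, if_neg h2]
      have : ¬ (i = part a ∨ i = part b) := by
        rintro (h3 | h3)
        · exact h1 h3.symm
        · exact h2 h3.symm
      simp [this]

/-- number of odd parts after removing a pair -/
lemma rr_same (S : Finset V) (a b : V) (ha : a ∈ S) (hb : b ∈ S.erase a)
    (h : part a = part b) : rr part ((S.erase a).erase b) = rr part S := by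
  unfold rr
  congr 1
  ext i
  simp only [mem_filter, mem_univ, true_and]
  exact odd_same part S a b ha hb h i

lemma rr_both (S : Finset V) (a b : V) (ha : a ∈ S) (hb : b ∈ S.erase a)
    (h : part a ≠ part b) (hoa : Odd (cnt part S (part a))) (hob : Odd (cnt part S (part b))) :
    rr part ((S.erase a).erase b) + 2 = rr part S := by
  unfold rr
  have h1 : (univ.filter (fun i => Odd (cnt part S i)))
      = insert (part a) (insert (part b)
        (univ.filter (fun i => Odd (cnt part ((S.erase a).erase b) i)))) := by
    ext i
    simp only [mem_filter, mem_univ, true_and, mem_insert]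
    rw [odd_diff part S a b ha hb h i]
    constructor
    · intro hi
      by_cases h1 : i = part a
      · exact Or.inl h1
      · by_cases h2 : i = part b
        · exact Or.inr (Or.inl h2)
        · refine Or.inr (Or.inr ?_)
          simp [hi, h1, h2]
    · rintro (rfl | rfl | h3)
      · exact hoa
      · exact hob
      · by_contra h4
        have h5 : i = part a ∨ i = part b := by
          by_contra h6
          exact h4 (h3.2 h6)
        rcases h5 with rfl | rfl
        · exact h4 hoa
        · exact h4 hob
  rw [h1, Finset.card_insert_of_notMem, Finset.card_insert_of_notMem]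
  · simp only [mem_filter, mem_univ, true_and]
    rw [odd_diff part S a b ha hb h]
    simp [hob]
  · simp only [mem_insert, mem_filter, mem_univ, true_and, not_or]
    refine ⟨h, ?_⟩
    rw [odd_diff part S a b ha hb h]
    simp [hoa]

lemma rr_not_both (S : Finset V) (a b : V) (ha : a ∈ S) (hb : b ∈ S.erase a)
    (h : part a ≠ part b) (hn : ¬ (Odd (cnt part S (part a)) ∧ Odd (cnt part S (part b)))) :
    rr part S ≤ rr part ((S.erase a).erase b) := by
  unfold rr
  by_cases h1 : Odd (cnt part S (part a))
  · have h2 : ¬ Odd (cnt part S (part b)) := fun h2 => hn ⟨h1, h2⟩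
    have h3 : (univ.filter (fun i => Odd (cnt part S i))).card
        = (insert (part b) ((univ.filter (fun i => Odd (cnt part S i))).erase (part a))).card := by
      rw [Finset.card_insert_of_notMem (by simp [h2]), Finset.card_erase_of_mem (by simp [h1])]
      have : 0 < (univ.filter (fun i => Odd (cnt part S i))).card :=
        Finset.card_pos.2 ⟨part a, by simp [h1]⟩
      omega
    rw [h3]
    refine Finset.card_le_card ?_
    intro i hi
    simp only [mem_insert, mem_erase, mem_filter, mem_univ, true_and] at hi ⊢
    rw [odd_diff part S a b ha hb h]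
    rcases hi with rfl | ⟨h4, h5⟩
    · simp [h2]
    · have : ¬ (i = part a ∨ i = part b) := by
        rintro (h6 | h6)
        · exact h4 h6
        · rw [h6] at h5; exact h2 h5
      simp [this, h5]
  · by_cases h2 : Odd (cnt part S (part b))
    · have h3 : (univ.filter (fun i => Odd (cnt part S i))).card
          = (insert (part a) ((univ.filter (fun i => Odd (cnt part S i))).erase (part b))).card := by
        rw [Finset.card_insert_of_notMem (by simp [h1]), Finset.card_erase_of_mem (by simp [h2])]
        have : 0 < (univ.filter (fun i => Odd (cnt part S i))).card :=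
          Finset.card_pos.2 ⟨part b, by simp [h2]⟩
        omega
      rw [h3]
      refine Finset.card_le_card ?_
      intro i hi
      simp only [mem_insert, mem_erase, mem_filter, mem_univ, true_and] at hi ⊢
      rw [odd_diff part S a b ha hb h]
      rcases hi with rfl | ⟨h4, h5⟩
      · simp [h1]
      · have : ¬ (i = part a ∨ i = part b) := by
          rintro (h6 | h6)
          · rw [h6] at h5; exact h1 h5
          · exact h4 h6
        simp [this, h5]
    · refine Finset.card_le_card ?_
      intro i hi
      simp only [mem_filter, mem_univ, true_and] at hi ⊢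
      rw [odd_diff part S a b ha hb h]
      have : ¬ (i = part a ∨ i = part b) := by
        rintro (h6 | h6)
        · rw [h6] at hi; exact h1 hi
        · rw [h6] at hi; exact h2 hi
      simp [this, hi]

omit [Fintype ι] in
/-- symmetry of eligibility of two disjoint pairs -/
lemma elig_swap (S : Finset V) (a b x y : V) (ha : a ∈ S) (hb : b ∈ S.erase a)
    (hx : x ∈ S) (hy : y ∈ S.erase x)
    (h : elig part S a b ∧ elig part ((S.erase a).erase b) x y) :
    (elig part S x y ∧ elig part ((S.erase x).erase y) a b) ∧
      (part a = part b ∨ part x = part y ∨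
        (part a ≠ part x ∧ part a ≠ part y ∧ part b ≠ part x ∧ part b ≠ part y)) := by
  obtain ⟨h1, h2⟩ := h
  by_cases hab : part a = part b
  · refine ⟨⟨?_, Or.inl hab⟩, Or.inl hab⟩
    rcases h2 with h2 | h2
    · exact Or.inl h2
    · right
      rw [odd_same part S a b ha hb hab, odd_same part S a b ha hb hab] at h2
      exact h2
  · have h1' : Odd (cnt part S (part a)) ∧ Odd (cnt part S (part b)) := h1.resolve_left hab
    by_cases hxy : part x = part y
    · refine ⟨⟨Or.inl hxy, Or.inr ?_⟩, Or.inr (Or.inl hxy)⟩
      rw [odd_same part S x y hx hy hxy, odd_same part S x y hx hy hxy]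
      exact h1'
    · have h2' := h2.resolve_left hxy
      rw [odd_diff part S a b ha hb hab, odd_diff part S a b ha hb hab] at h2'
      obtain ⟨h3, h4⟩ := h2'
      have hxn : ¬ (part x = part a ∨ part x = part b) := by
        intro h5
        have h6 : Odd (cnt part S (part x)) := by
          rcases h5 with h5 | h5
          · rw [h5]; exact h1'.1
          · rw [h5]; exact h1'.2
        exact (h3.1 h6) h5
      have hyn : ¬ (part y = part a ∨ part y = part b) := by
        intro h5
        have h6 : Odd (cnt part S (part y)) := by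
          rcases h5 with h5 | h5
          · rw [h5]; exact h1'.1
          · rw [h5]; exact h1'.2
        exact (h4.1 h6) h5
      have hox : Odd (cnt part S (part x)) := h3.2 hxn
      have hoy : Odd (cnt part S (part y)) := h4.2 hyn
      refine ⟨⟨Or.inr ⟨hox, hoy⟩, Or.inr ⟨?_, ?_⟩⟩, Or.inr (Or.inr ⟨fun h => hxn (Or.inl h.symm),
        fun h => hyn (Or.inl h.symm), fun h => hxn (Or.inr h.symm),
        fun h => hyn (Or.inr h.symm)⟩)⟩
      · rw [odd_diff part S x y hx hy hxy]
        have : ¬ (part a = part x ∨ part a = part y) := by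
          rintro (h6 | h6)
          · exact hxn (Or.inl h6.symm)
          · exact hyn (Or.inl h6.symm)
        simp [this, h1'.1]
      · rw [odd_diff part S x y hx hy hxy]
        have : ¬ (part b = part x ∨ part b = part y) := by
          rintro (h6 | h6)
          · exact hxn (Or.inr h6.symm)
          · exact hyn (Or.inr h6.symm)
        simp [this, h1'.2]

/-- hypotheses: `D` is an orientation of the complete multipartite graph with the given parts -/
structure Hyp : Prop where
  iff : ∀ u v, (D u v ∨ D v u) ↔ part u ≠ part v
  anti : ∀ u v, ¬ (D u v ∧ D v u)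

variable {part D}

/-- indicator -/
def ii (D : V → V → Prop) [DecidableRel D] (u v : V) : ℕ := if D u v then 1 else 0

omit [DecidableEq V] [Fintype ι] in
lemma ii_add (H : Hyp part D) (u v : V) :
    ii D u v + ii D v u = if part u = part v then 0 else 1 := by
  unfold ii
  have h1 := H.iff u v
  have h2 := H.anti u v
  by_cases h3 : D u v <;> by_cases h4 : D v u <;> by_cases h5 : part u = part v <;>
    simp_all

omit [DecidableEq V] [Fintype ι] [DecidableEq ι] [DecidableRel D] in
lemma irr (H : Hyp part D) (u : V) : ¬ D u u := fun h => H.anti u u ⟨h, h⟩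

variable (D) in
lemma os_erase (S : Finset V) (x : V) (hx : x ∈ S) (a : V) :
    os D S a = os D (S.erase x) a + ii D a x := by
  unfold os ii
  conv_lhs => rw [← Finset.insert_erase hx]
  rw [Finset.filter_insert]
  split_ifs with h
  · rw [Finset.card_insert_of_notMem (by simp)]
  · simp

lemma erase4 (S : Finset V) (a b x y : V) :
    (((S.erase x).erase y).erase a).erase b = (((S.erase a).erase b).erase x).erase y := by
  ext z
  simp only [mem_erase]
  tauto

omit [Fintype ι] in
lemma phi_comm (H : Hyp part D) (S : Finset V) (a b x y : V) (ha : a ∈ S) (hb : b ∈ S)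
    (hx : x ∈ S) (hy : y ∈ S) (hab : a ≠ b) (hxy : x ≠ y) (hax : a ≠ x) (hay : a ≠ y)
    (hbx : b ≠ x) (hby : b ≠ y) :
    phi part D S a b * phi part D ((S.erase a).erase b) x y
      = phi part D S x y * phi part D ((S.erase x).erase y) a b := by
  have hb' : b ∈ S.erase a := mem_erase.2 ⟨hab.symm, hb⟩
  have hy' : y ∈ S.erase x := mem_erase.2 ⟨hxy.symm, hy⟩
  by_cases hL : elig part S a b ∧ elig part ((S.erase a).erase b) x y
  · obtain ⟨⟨h1, h2⟩, h3⟩ := elig_swap part S a b x y ha hb' hx hy' hL
    unfold phi
    rw [if_pos hL.1, if_pos hL.2, if_pos h1, if_pos h2, ← pow_add, ← pow_add]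
    unfold E2
    set R := (((S.erase a).erase b).erase x).erase y with hR
    have e1 : ∀ u, os D ((S.erase a).erase b) u = os D R u + ii D u y + ii D u x := by
      intro u
      rw [os_erase D ((S.erase a).erase b) x (by simp [hx, hax.symm, hbx.symm]) u,
        os_erase D (((S.erase a).erase b).erase x) y (by simp [hy, hay.symm, hby.symm, hxy.symm]) u]
    have e2 : ∀ u, os D ((S.erase x).erase y) u = os D R u + ii D u b + ii D u a := by
      intro u
      rw [os_erase D ((S.erase x).erase y) a (by simp [ha, hax, hay]) u,
        os_erase D (((S.erase x).erase y).erase a) b (by simp [hb, hbx, hby, hab.symm]) u, erase4]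
    rw [erase4, ← hR, e1, e1, e2, e2]
    have p1 := ii_add H a x
    have p2 := ii_add H a y
    have p3 := ii_add H b x
    have p4 := ii_add H b y
    have hpar : (ii D a y + ii D a x + (ii D b y + ii D b x)) % 2
        = (ii D x b + ii D x a + (ii D y b + ii D y a)) % 2 := by
      rcases h3 with h3 | h3 | h3
      · rw [h3] at p1 p2
        split_ifs at p1 p2 p3 p4 <;> omega
      · rw [h3] at p1 p3
        split_ifs at p1 p2 p3 p4 <;> omega
      · rw [if_neg h3.1] at p1
        rw [if_neg h3.2.1] at p2
        rw [if_neg h3.2.2.1] at p3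
        rw [if_neg h3.2.2.2] at p4
        omega
    rw [neg_one_pow_eq_pow_mod_two (n := os D R a + ii D a y + ii D a x + _ + _),
      neg_one_pow_eq_pow_mod_two (n := os D R x + ii D x b + ii D x a + _ + _)]
    congr 1
    omega
  · have hR : ¬ (elig part S x y ∧ elig part ((S.erase x).erase y) a b) := by
      intro h
      exact hL (elig_swap part S x y a b hx hy' ha hb' h).1
    unfold phi
    have z1 : (if elig part S a b then ((-1 : ℤ)) ^ E2 D S a b else 0) *
        (if elig part ((S.erase a).erase b) x y then ((-1 : ℤ)) ^ E2 D ((S.erase a).erase b) x y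
          else 0) = 0 := by
      by_cases h1 : elig part S a b
      · rw [if_neg (fun h2 => hL ⟨h1, h2⟩), mul_zero]
      · rw [if_neg h1, zero_mul]
    have z2 : (if elig part S x y then ((-1 : ℤ)) ^ E2 D S x y else 0) *
        (if elig part ((S.erase x).erase y) a b then ((-1 : ℤ)) ^ E2 D ((S.erase x).erase y) a b
          else 0) = 0 := by
      by_cases h1 : elig part S x y
      · rw [if_neg (fun h2 => hR ⟨h1, h2⟩), mul_zero]
      · rw [if_neg h1, zero_mul]
    rw [z1, z2]

omit [Fintype ι] in
lemma phi_symm (S : Finset V) (a b : V) : phi part D S a b = phi part D S b a := by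
  unfold phi
  have h1 : elig part S a b ↔ elig part S b a := by
    unfold elig
    constructor
    · rintro (h | h)
      · exact Or.inl h.symm
      · exact Or.inr ⟨h.2, h.1⟩
    · rintro (h | h)
      · exact Or.inl h.symm
      · exact Or.inr ⟨h.2, h.1⟩
  have h2 : E2 D S a b = E2 D S b a := by
    unfold E2
    rw [Finset.erase_right_comm, add_comm]
  rw [h2]
  by_cases h : elig part S a b
  · rw [if_pos h, if_pos (h1.1 h)]
  · rw [if_neg h, if_neg (fun h3 => h (h1.2 h3))]

omit [Fintype ι] in
/-- expansion of `U` along a fixed vertex -/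
lemma U_fix (H : Hyp part D) (k : ℕ) : ∀ (S : Finset V), S.card = 2 * (k + 1) → ∀ x ∈ S,
    U part D (k + 1) S = 2 * (k + 1) * ∑ y ∈ S.erase x,
      phi part D S x y * U part D k ((S.erase x).erase y) := by
  induction k with
  | zero =>
    intro S hS x hx
    have h1 : U part D 1 S = ∑ a ∈ S, ∑ b ∈ S.erase a,
        phi part D S a b * U part D 0 ((S.erase a).erase b) := rfl
    rw [h1, ← Finset.add_sum_erase S _ hx]
    have hc : (S.erase x).card = 1 := by rw [Finset.card_erase_of_mem hx, hS]
    obtain ⟨z, hz⟩ := Finset.card_eq_one.1 hc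
    have hxz : x ≠ z := by
      have : z ∈ S.erase x := by rw [hz]; simp
      exact (ne_of_mem_erase this).symm
    have hS2 : S = {x, z} := by
      rw [← Finset.insert_erase hx, hz]
    rw [hz]
    have hz2 : S.erase z = {x} := by
      rw [hS2]
      ext w
      simp only [mem_erase, mem_insert, mem_singleton]
      constructor
      · rintro ⟨h1, h2 | h2⟩
        · exact h2
        · exact absurd h2 h1
      · rintro rfl
        exact ⟨hxz, Or.inl rfl⟩
    simp only [sum_singleton, hz2, U, mul_one]
    rw [phi_symm S z x]
    push_cast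
    ring
  | succ k ih =>
    intro S hS x hx
    have h1 : U part D (k + 1 + 1) S = ∑ a ∈ S, ∑ b ∈ S.erase a,
        phi part D S a b * U part D (k + 1) ((S.erase a).erase b) := rfl
    rw [h1, ← Finset.add_sum_erase S _ hx]
    have h2 : ∀ a ∈ S.erase x, ∑ b ∈ S.erase a,
        phi part D S a b * U part D (k + 1) ((S.erase a).erase b)
        = phi part D S x a * U part D (k + 1) ((S.erase x).erase a) +
          2 * (k + 1) * ∑ b ∈ (S.erase a).erase x, ∑ y ∈ (((S.erase a).erase b).erase x),
            phi part D S x y * (phi part D ((S.erase x).erase y) a b *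
              U part D k ((((S.erase x).erase y).erase a).erase b)) := by
      intro a ha
      obtain ⟨hax, haS⟩ := mem_erase.1 ha
      have hxa : x ∈ S.erase a := mem_erase.2 ⟨hax.symm, hx⟩
      rw [← Finset.add_sum_erase (S.erase a) _ hxa]
      congr 1
      · rw [phi_symm S a x, Finset.erase_right_comm]
      · rw [Finset.mul_sum]
        refine Finset.sum_congr rfl fun b hb => ?_
        simp only [mem_erase] at hb
        obtain ⟨hbx, hba, hbS⟩ := hb
        have hxab : x ∈ (S.erase a).erase b := by simp [hx, hax.symm, hbx.symm]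
        have hcard : ((S.erase a).erase b).card = 2 * (k + 1) := by
          rw [Finset.card_erase_of_mem (by simp [hba, hbS]), Finset.card_erase_of_mem haS, hS]
          omega
        rw [ih _ hcard x hxab, mul_left_comm, Finset.mul_sum]
        congr 1
        refine Finset.sum_congr rfl fun y hy => ?_
        simp only [mem_erase] at hy
        obtain ⟨hyx, hyb, hya, hyS⟩ := hy
        rw [← mul_assoc, phi_comm H S a b x y haS hbS hx hyS hba.symm hyx.symm hax hya.symm hbx
          hyb.symm, mul_assoc, erase4]
    rw [Finset.sum_congr rfl h2, Finset.sum_add_distrib, ← Finset.mul_sum]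
    have h3 : ∑ a ∈ S.erase x, ∑ b ∈ (S.erase a).erase x, ∑ y ∈ (((S.erase a).erase b).erase x),
            phi part D S x y * (phi part D ((S.erase x).erase y) a b *
              U part D k ((((S.erase x).erase y).erase a).erase b))
        = ∑ y ∈ S.erase x, ∑ a ∈ (S.erase x).erase y, ∑ b ∈ ((S.erase x).erase y).erase a,
            phi part D S x y * (phi part D ((S.erase x).erase y) a b *
              U part D k ((((S.erase x).erase y).erase a).erase b)) := by
      have h4 : ∀ a ∈ S.erase x, ∑ b ∈ (S.erase a).erase x,
          ∑ y ∈ (((S.erase a).erase b).erase x),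
            phi part D S x y * (phi part D ((S.erase x).erase y) a b *
              U part D k ((((S.erase x).erase y).erase a).erase b))
          = ∑ y ∈ (S.erase a).erase x, ∑ b ∈ ((S.erase x).erase y).erase a,
            phi part D S x y * (phi part D ((S.erase x).erase y) a b *
              U part D k ((((S.erase x).erase y).erase a).erase b)) := by
        intro a ha
        refine Finset.sum_comm' ?_
        intro b y
        simp only [mem_erase]
        tauto
      rw [Finset.sum_congr rfl h4]
      refine Finset.sum_comm' ?_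
      intro a y
      simp only [mem_erase]
      tauto
    rw [h3]
    have h5 : ∀ y ∈ S.erase x, ∑ a ∈ (S.erase x).erase y, ∑ b ∈ ((S.erase x).erase y).erase a,
            phi part D S x y * (phi part D ((S.erase x).erase y) a b *
              U part D k ((((S.erase x).erase y).erase a).erase b))
        = phi part D S x y * U part D (k + 1) ((S.erase x).erase y) := by
      intro y _
      have : U part D (k + 1) ((S.erase x).erase y) = ∑ a ∈ (S.erase x).erase y,
        ∑ b ∈ ((S.erase x).erase y).erase a,
        phi part D ((S.erase x).erase y) a b *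
          U part D k ((((S.erase x).erase y).erase a).erase b) := rfl
      rw [this, Finset.mul_sum]
      refine Finset.sum_congr rfl fun a _ => ?_
      rw [Finset.mul_sum]
    rw [Finset.sum_congr rfl h5]
    push_cast
    ring

lemma odd_sum_of_odd {α : Type*} (s : Finset α) (f : α → ℤ) (hs : Odd s.card)
    (hf : ∀ a ∈ s, Odd (f a)) : Odd (∑ a ∈ s, f a) := by
  classical
  have h : ∀ t : Finset α, (∀ a ∈ t, Odd (f a)) → (Odd (∑ a ∈ t, f a) ↔ Odd t.card) := by
    intro t
    induction t using Finset.induction_on with
    | empty => intro _; simp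
    | insert a t ha ih =>
      intro ht
      rw [Finset.sum_insert ha, Finset.card_insert_of_notMem ha]
      have h1 := ht a (by simp)
      have h2 := ih (fun b hb => ht b (by simp [hb]))
      rw [Int.odd_add, Nat.odd_add_one, ← h2]
      simp [h1, Int.not_odd_iff_even]
  exact (h s hf).2 hs

/-- `U` is `2^k k!` times an odd number -/
lemma U_odd (H : Hyp part D) (k : ℕ) : ∀ (S : Finset V), S.card = 2 * k →
    ∃ o : ℤ, Odd o ∧ U part D k S = 2 ^ k * (k.factorial : ℤ) * o := by
  induction k with
  | zero =>
    intro S _
    exact ⟨1, odd_one, by simp [U]⟩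
  | succ k ih =>
    intro S hS
    obtain ⟨x, hx⟩ : S.Nonempty := by
      rw [← Finset.card_pos, hS]; omega
    have h1 : ∀ y ∈ S.erase x, ∃ o : ℤ, Odd o ∧
        U part D k ((S.erase x).erase y) = 2 ^ k * (k.factorial : ℤ) * o := by
      intro y hy
      apply ih
      rw [Finset.card_erase_of_mem hy, Finset.card_erase_of_mem hx, hS]
      omega
    choose! o ho1 ho2 using h1
    refine ⟨∑ y ∈ (S.erase x).filter (fun y => elig part S x y), (-1) ^ E2 D S x y * o y, ?_, ?_⟩
    · apply odd_sum_of_odd
      · exact odd_partners part S (by rw [hS]; exact even_two_mul _) x hx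
      · intro y hy
        exact (Odd.pow (by decide)).mul (ho1 y (mem_filter.1 hy).1)
    · rw [U_fix H k S hS x hx, Finset.sum_filter]
      have h2 : ∀ y ∈ S.erase x, phi part D S x y * U part D k ((S.erase x).erase y)
          = 2 ^ k * (k.factorial : ℤ) * (if elig part S x y then (-1) ^ E2 D S x y * o y else 0) := by
        intro y hy
        rw [ho2 y hy]
        unfold phi
        split_ifs
        · ring
        · ring
      rw [Finset.sum_congr rfl h2, ← Finset.mul_sum, Nat.factorial_succ]
      push_cast
      ring

/-- the polynomial in the variable `t + 1` -/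
noncomputable def Q (D : V → V → Prop) [DecidableRel D] (n : ℕ) (S : Finset V) : ℤ[X] :=
  (W D n S).comp (X - 1)

variable (D) in
lemma Q_succ (n : ℕ) (S : Finset V) :
    Q D (n + 1) S = ∑ a ∈ S, (X - 1) ^ os D S a * Q D n (S.erase a) := by
  unfold Q
  simp only [W]
  rw [Polynomial.sum_comp]
  refine Finset.sum_congr rfl fun a _ => ?_
  rw [Polynomial.mul_comp, Polynomial.X_pow_comp]
  rfl

omit [Fintype ι] in
lemma Q_two (H : Hyp part D) (n : ℕ) (S : Finset V) :
    2 * Q D (n + 2) S = ∑ a ∈ S, ∑ b ∈ S.erase a,
      ((X - 1) ^ E2 D S a b * (if part a = part b then 2 else X)) *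
        Q D n ((S.erase a).erase b) := by
  set g : V → V → ℤ[X] := fun a b => (X - 1) ^ os D S a * ((X - 1) ^ os D (S.erase a) b *
    Q D n ((S.erase a).erase b)) with hg
  have h1 : Q D (n + 2) S = ∑ a ∈ S, ∑ b ∈ S.erase a, g a b := by
    rw [Q_succ]
    refine Finset.sum_congr rfl fun a _ => ?_
    rw [Q_succ, Finset.mul_sum]
  have h2 : ∑ a ∈ S, ∑ b ∈ S.erase a, g a b = ∑ a ∈ S, ∑ b ∈ S.erase a, g b a := by
    refine Finset.sum_comm' ?_
    intro a b
    simp only [mem_erase]
    tauto
  rw [two_mul]
  nth_rewrite 2 [h1]
  rw [h2, h1, ← Finset.sum_add_distrib]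
  refine Finset.sum_congr rfl fun a ha => ?_
  rw [← Finset.sum_add_distrib]
  refine Finset.sum_congr rfl fun b hb => ?_
  obtain ⟨hba, hbS⟩ := mem_erase.1 hb
  have haa : ii D a a = 0 := by unfold ii; rw [if_neg (irr H a)]
  have hbb : ii D b b = 0 := by unfold ii; rw [if_neg (irr H b)]
  have e1 : os D S a = os D ((S.erase a).erase b) a + ii D a b := by
    rw [os_erase D S a ha a, os_erase D (S.erase a) b hb a, haa]
    ring
  have e2 : os D (S.erase a) b = os D ((S.erase a).erase b) b := by
    rw [os_erase D (S.erase a) b hb b, hbb]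
    ring
  have ha' : a ∈ S.erase b := mem_erase.2 ⟨hba.symm, ha⟩
  have e3 : os D S b = os D ((S.erase a).erase b) b + ii D b a := by
    rw [os_erase D S b hbS b, os_erase D (S.erase b) a ha' b, hbb, Finset.erase_right_comm]
    ring
  have e4 : os D (S.erase b) a = os D ((S.erase a).erase b) a := by
    rw [os_erase D (S.erase b) a ha' a, haa, Finset.erase_right_comm]
    ring
  simp only [hg]
  rw [e1, e2, e3, e4, Finset.erase_right_comm (s := S) (a := b) (b := a)]
  unfold E2
  have h3 : ((X - 1 : ℤ[X])) ^ ii D a b + (X - 1) ^ ii D b a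
      = if part a = part b then 2 else X := by
    have h4 := ii_add H a b
    split_ifs at h4 ⊢ with h5
    · have h6 : ii D a b = 0 := by omega
      have h7 : ii D b a = 0 := by omega
      rw [h6, h7]; norm_num
    · rcases Nat.eq_zero_or_pos (ii D a b) with h6 | h6
      · have h7 : ii D b a = 1 := by omega
        rw [h6, h7]; ring
      · have h7 : ii D a b = 1 := by omega
        have h8 : ii D b a = 0 := by omega
        rw [h7, h8]; ring
  rw [← h3]
  ring

lemma coeff_zero_pow (e : ℕ) (R : ℤ[X]) : ((X - 1) ^ e * R).coeff 0 = (-1) ^ e * R.coeff 0 := by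
  rw [Polynomial.mul_coeff_zero]
  congr 1
  rw [Polynomial.coeff_zero_eq_eval_zero]
  simp

/-- the structure of `Q` for even cardinality -/
lemma Q_even (H : Hyp part D) (k : ℕ) : ∀ (S : Finset V), S.card = 2 * k →
    ∃ R : ℤ[X], Q D (2 * k) S = X ^ (rr part S / 2) * R ∧
      2 ^ (rr part S / 2) * R.coeff 0 = U part D k S := by
  induction k with
  | zero =>
    intro S hS
    have : S = ∅ := by simpa using hS
    subst this
    refine ⟨1, ?_, ?_⟩
    · simp [Q, W, rr, cnt]
    · simp [U, rr, cnt]
  | succ k ih =>
    intro S hS
    set m := rr part S / 2 with hm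
    have hterm : ∀ a ∈ S, ∀ b ∈ S.erase a, ∃ R : ℤ[X],
        ((X - 1) ^ E2 D S a b * (if part a = part b then 2 else X)) *
          Q D (2 * k) ((S.erase a).erase b) = X ^ m * R ∧
        2 ^ m * R.coeff 0 = 2 * (phi part D S a b * U part D k ((S.erase a).erase b)) := by
      intro a ha b hb
      obtain ⟨R', hR1, hR2⟩ := ih ((S.erase a).erase b) (by
        rw [Finset.card_erase_of_mem hb, Finset.card_erase_of_mem ha, hS]; omega)
      rw [hR1, ← hR2]
      by_cases hab : part a = part b
      · rw [if_pos hab, rr_same part S a b ha hb hab, ← hm]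
        refine ⟨(X - 1) ^ E2 D S a b * (2 * R'), by ring, ?_⟩
        rw [coeff_zero_pow]
        have : phi part D S a b = (-1) ^ E2 D S a b := by
          have he : elig part S a b := Or.inl hab
          unfold phi; rw [if_pos he]
        rw [this, Polynomial.mul_coeff_zero]
        have h2 : (2 : ℤ[X]).coeff 0 = 2 := by
          rw [Polynomial.coeff_zero_eq_eval_zero]; simp
        rw [h2]
        ring
      · rw [if_neg hab]
        by_cases hodd : Odd (cnt part S (part a)) ∧ Odd (cnt part S (part b))
        · have h1 := rr_both part S a b ha hb hab hodd.1 hodd.2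
          have h2 : m = rr part ((S.erase a).erase b) / 2 + 1 := by omega
          rw [h2]
          refine ⟨(X - 1) ^ E2 D S a b * R', by ring, ?_⟩
          rw [coeff_zero_pow]
          have : phi part D S a b = (-1) ^ E2 D S a b := by
            have he : elig part S a b := Or.inr hodd
            unfold phi; rw [if_pos he]
          rw [this]
          ring
        · have h1 := rr_not_both part S a b ha hb hab hodd
          obtain ⟨d, hd⟩ : ∃ d, rr part ((S.erase a).erase b) / 2 = m + d :=
            ⟨rr part ((S.erase a).erase b) / 2 - m, by omega⟩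
          rw [hd]
          refine ⟨(X - 1) ^ E2 D S a b * (X * (X ^ d * R')), by ring, ?_⟩
          rw [coeff_zero_pow, Polynomial.mul_coeff_zero, Polynomial.coeff_X_zero]
          have : phi part D S a b = 0 := by
            unfold phi
            rw [if_neg]
            rintro (h | h)
            · exact hab h
            · exact hodd h
          rw [this]
          ring
    choose! R hR1 hR2 using hterm
    have h1 := Q_two H (2 * k) S
    have h2 : 2 * Q D (2 * k + 2) S = X ^ m * ∑ a ∈ S, ∑ b ∈ S.erase a, R a b := by
      rw [h1, Finset.mul_sum]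
      refine Finset.sum_congr rfl fun a ha => ?_
      rw [Finset.mul_sum]
      exact Finset.sum_congr rfl fun b hb => hR1 a ha b hb
    have h3 : X ^ m ∣ Q D (2 * k + 2) S := by
      rw [Polynomial.X_pow_dvd_iff]
      intro d hd
      have h4 : (2 * Q D (2 * k + 2) S).coeff d
          = (X ^ m * ∑ a ∈ S, ∑ b ∈ S.erase a, R a b).coeff d := by rw [h2]
      rw [Polynomial.coeff_X_pow_mul', if_neg (not_le.2 hd), two_mul, Polynomial.coeff_add] at h4
      omega
    obtain ⟨T, hT⟩ := h3
    refine ⟨T, hT, ?_⟩
    rw [hT] at h2
    have h5 : 2 * T = ∑ a ∈ S, ∑ b ∈ S.erase a, R a b := by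
      have : (X : ℤ[X]) ^ m * (2 * T) = X ^ m * ∑ a ∈ S, ∑ b ∈ S.erase a, R a b := by
        rw [← h2]; ring
      exact mul_left_cancel₀ (pow_ne_zero _ Polynomial.X_ne_zero) this
    have h6 : 2 * T.coeff 0 = ∑ a ∈ S, ∑ b ∈ S.erase a, (R a b).coeff 0 := by
      have h7 : (2 * T).coeff 0 = (∑ a ∈ S, ∑ b ∈ S.erase a, R a b).coeff 0 := by rw [h5]
      rw [two_mul, Polynomial.coeff_add, Polynomial.finsetSum_coeff] at h7
      rw [two_mul, h7]
      refine Finset.sum_congr rfl fun a _ => ?_
      rw [Polynomial.finsetSum_coeff]
    have h8 : 2 * (2 ^ m * T.coeff 0) = 2 * U part D (k + 1) S := by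
      have h9 : U part D (k + 1) S = ∑ a ∈ S, ∑ b ∈ S.erase a,
        phi part D S a b * U part D k ((S.erase a).erase b) := rfl
      rw [mul_left_comm, h6, h9, Finset.mul_sum, Finset.mul_sum]
      refine Finset.sum_congr rfl fun a ha => ?_
      rw [Finset.mul_sum, Finset.mul_sum]
      exact Finset.sum_congr rfl fun b hb => hR2 a ha b hb
    exact mul_left_cancel₀ (by norm_num) h8

omit [DecidableRel D] in
lemma rr_erase (S : Finset V) (s : V) (hs : s ∈ S) :
    (Odd (cnt part S (part s)) → rr part (S.erase s) + 1 = rr part S) ∧
    (¬ Odd (cnt part S (part s)) → rr part (S.erase s) = rr part S + 1) := by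
  have h1 : ∀ i, Odd (cnt part (S.erase s) i) ↔ (Odd (cnt part S i) ↔ i ≠ part s) := by
    intro i
    rw [cnt_erase part S s hs i]
    by_cases h : part s = i
    · rw [if_pos h]
      simp only [h, ne_eq, not_true_eq_false, iff_false, Nat.not_odd_iff_even]
      rw [Nat.odd_iff, Nat.even_iff]; omega
    · rw [if_neg h]
      have : i ≠ part s := fun h2 => h h2.symm
      simp [this]
  constructor
  · intro ho
    unfold rr
    have : (univ.filter (fun i => Odd (cnt part S i)))
        = insert (part s) (univ.filter (fun i => Odd (cnt part (S.erase s) i))) := by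
      ext i
      simp only [mem_filter, mem_univ, true_and, mem_insert]
      rw [h1]
      by_cases h : i = part s
      · rw [h]; simp [ho]
      · simp [h]
    rw [this, Finset.card_insert_of_notMem]
    simp only [mem_filter, mem_univ, true_and]
    rw [h1]
    simp [ho]
  · intro ho
    unfold rr
    have : (univ.filter (fun i => Odd (cnt part (S.erase s) i)))
        = insert (part s) (univ.filter (fun i => Odd (cnt part S i))) := by
      ext i
      simp only [mem_filter, mem_univ, true_and, mem_insert]
      rw [h1]
      by_cases h : i = part s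
      · rw [h]; simp [ho]
      · simp [h]
    rw [this, Finset.card_insert_of_notMem]
    simp [ho]

/-- general structure -/
lemma Q_all (H : Hyp part D) (S : Finset V) :
    ∃ R : ℤ[X], Q D S.card S = X ^ (rr part S / 2) * R ∧ R.coeff 0 ≠ 0 := by
  rcases Nat.even_or_odd' S.card with ⟨k, hk | hk⟩
  · obtain ⟨R, h1, h2⟩ := Q_even H k S hk
    refine ⟨R, by rw [hk]; exact h1, ?_⟩
    intro h3
    obtain ⟨o, ho1, ho2⟩ := U_odd H k S hk
    rw [h3, mul_zero, ho2] at h2
    have h4 : o ≠ 0 := by rintro rfl; simp at ho1
    have h5 : (2 : ℤ) ^ k * (k.factorial : ℤ) * o ≠ 0 := by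
      have : (k.factorial : ℤ) ≠ 0 := by exact_mod_cast k.factorial_ne_zero
      positivity
    exact h5 h2.symm
  · have hodd : Odd (rr part S) := by
      rw [odd_rr, hk]; exact ⟨k, rfl⟩
    obtain ⟨m, hm⟩ := hodd
    have hm2 : rr part S / 2 = m := by omega
    have hex : ∀ s ∈ S, ∃ o : ℤ, Odd o ∧ U part D k (S.erase s) = 2 ^ k * (k.factorial : ℤ) * o := by
      intro s hs
      apply U_odd H
      rw [Finset.card_erase_of_mem hs, hk]; omega
    choose! o ho1 ho2 using hex
    have hterm : ∀ s ∈ S, ∃ R : ℤ[X], (X - 1) ^ os D S s * Q D (2 * k) (S.erase s) = X ^ m * R ∧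
        2 ^ m * R.coeff 0 = 2 ^ k * (k.factorial : ℤ) *
          (if Odd (cnt part S (part s)) then (-1) ^ os D S s * o s else 0) := by
      intro s hs
      obtain ⟨R', hR1, hR2⟩ := Q_even H k (S.erase s) (by
        rw [Finset.card_erase_of_mem hs, hk]; omega)
      rw [hR1]
      by_cases ho : Odd (cnt part S (part s))
      · have h1 := (rr_erase (part := part) S s hs).1 ho
        have h2 : rr part (S.erase s) / 2 = m := by omega
        rw [h2] at hR2 ⊢
        refine ⟨(X - 1) ^ os D S s * R', by ring, ?_⟩
        rw [coeff_zero_pow, if_pos ho, mul_left_comm, hR2, ho2 s hs]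
        ring
      · have h1 := (rr_erase (part := part) S s hs).2 ho
        have h2 : rr part (S.erase s) / 2 = m + 1 := by omega
        rw [h2]
        refine ⟨(X - 1) ^ os D S s * (X * R'), by ring, ?_⟩
        rw [coeff_zero_pow, Polynomial.mul_coeff_zero, Polynomial.coeff_X_zero, if_neg ho]
        ring
    choose! R hR1 hR2 using hterm
    refine ⟨∑ s ∈ S, R s, ?_, ?_⟩
    · rw [hk, Q_succ, hm2, Finset.mul_sum]
      exact Finset.sum_congr rfl fun s hs => hR1 s hs
    · intro h0
      have h1 : 2 ^ m * (∑ s ∈ S, R s).coeff 0 = 2 ^ k * (k.factorial : ℤ) *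
          ∑ s ∈ S, (if Odd (cnt part S (part s)) then (-1) ^ os D S s * o s else 0) := by
        rw [Polynomial.finsetSum_coeff, Finset.mul_sum, Finset.mul_sum]
        exact Finset.sum_congr rfl fun s hs => hR2 s hs
      rw [h0, mul_zero, ← Finset.sum_filter] at h1
      have h2 : Odd (∑ s ∈ S.filter (fun s => Odd (cnt part S (part s))),
          (-1) ^ os D S s * o s) := by
        apply odd_sum_of_odd
        · rw [odd_card_odd, hk]; exact ⟨k, rfl⟩
        · intro s hs
          exact (Odd.pow (by decide)).mul (ho1 s (mem_filter.1 hs).1)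
      have h3 : (∑ s ∈ S.filter (fun s => Odd (cnt part S (part s))),
          (-1) ^ os D S s * o s) ≠ 0 := by
        intro h4; rw [h4] at h2; simp at h2
      have h5 : (2 : ℤ) ^ k * (k.factorial : ℤ) ≠ 0 := by
        have : (k.factorial : ℤ) ≠ 0 := by exact_mod_cast k.factorial_ne_zero
        positivity
      exact (mul_ne_zero h5 h3) h1.symm

end main

/-- **Multiplicity of `-1` in the Eulerian polynomial of an oriented complete multipartite graph.**
Let `part : V → ι` assign to each vertex of the finite set `V` its part and let `D` be an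
orientation of the complete multipartite graph with these parts: two vertices are joined by an arc
(in one of the two directions, never in both) exactly when they lie in different parts. Then the
multiplicity of `-1` as a root of the Eulerian polynomial `A_D` is `⌊r/2⌋`, where `r` is the number
of parts of odd size. -/
theorem result {V ι : Type} [Fintype V] [DecidableEq V] [Fintype ι] [DecidableEq ι]
    (part : V → ι) (D : V → V → Prop) [DecidableRel D]
    (hD : ∀ u v, (D u v ∨ D v u) ↔ part u ≠ part v) (hanti : ∀ u v, ¬ (D u v ∧ D v u)) :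
    (eulerPoly D).rootMultiplicity (-1) =
      (univ.filter (fun i : ι => Odd (univ.filter (fun v : V => part v = i)).card)).card / 2 := by
  classical
  have H : Hyp part D := ⟨hD, hanti⟩
  obtain ⟨R, h1, h2⟩ := Q_all H (univ : Finset V)
  have h3 : eulerPoly D = W D (Fintype.card V) univ := by
    unfold eulerPoly
    exact eulerN_eq (Fintype.card V) V D (fun v => irr H v) rfl
  rw [Polynomial.rootMultiplicity_eq_natTrailingDegree]
  have h4 : (eulerPoly D).comp (X + C (-1)) = X ^ (rr part (univ : Finset V) / 2) * R := by
    rw [← h1, h3]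
    unfold Q
    rw [Finset.card_univ]
    congr 1
    simp [sub_eq_add_neg]
  rw [h4]
  have h5 : R ≠ 0 := by rintro rfl; simp at h2
  change _ = rr part (univ : Finset V) / 2
  apply le_antisymm
  · apply Polynomial.natTrailingDegree_le_of_ne_zero
    rw [Polynomial.coeff_X_pow_mul', if_pos le_rfl, Nat.sub_self]
    exact h2
  · apply Polynomial.le_natTrailingDegree (mul_ne_zero (pow_ne_zero _ Polynomial.X_ne_zero) h5)
    intro d hd
    rw [Polynomial.coeff_X_pow_mul', if_neg (not_le.2 hd)]

end Pool.Agent.Results.MP_a2af9e_co.ExactMultiplicity
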